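import Pool.Agent.U222.SM.Defs

/-!
# The cohomology of the generic point: definitions
-/

set_option autoImplicit false

open Finset TensorProduct

namespace Pool.Agent.U222.FF

open Pool.Agent.U222.SL Pool.Agent.U222.CR.Pub Pool.Agent.U222.SM

section modules

variable {K A B M W U : Type} [Field K] [AddCommGroup A] [Module K A] [AddCommGroup B] [Module K B]
  [AddCommGroup M] [Module K M] [AddCommGroup W] [Module K W] [AddCommGroup U] [Module K U]

/-- The linear map `f` commutes with `φ` and `ψ`. -/
def Intertwines (f : A →ₗ[K] B) (φ : Module.End K A) (ψ : Module.End K B) : Prop :=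
  ∀ x, ψ (f x) = f (φ x)

/-- The linear map `f` maps the subspace `S` to the subspace `S'`. -/
def MapsTo (f : A →ₗ[K] B) (S : Submodule K A) (S' : Submodule K B) : Prop := ∀ x ∈ S, f x ∈ S'

/-- The elements of `S` which `φ` multiplies by `a`. -/
def eigenIn (φ : Module.End K A) (S : Submodule K A) (a : K) : Set A := {y | y ∈ S ∧ φ y = a • y}

/-- The elements of `Y` are images of elements of `S`. -/
def Lifts (f : A →ₗ[K] B) (S : Submodule K A) (Y : Set B) : Prop := ∀ y ∈ Y, ∃ x ∈ S, f x = y

/-- The map `r` is zero on `S`. -/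
def IsZeroOn (r : A →ₗ[K] W) (S : Set A) : Prop := ∀ x ∈ S, r x = 0

/-- The map `r` is zero on the products of elements of `S` with other elements (`k` is the isomorphism
of Künneth). -/
def KillsProducts (k : A ⊗[K] B ≃ₗ[K] M) (r : M →ₗ[K] W) (S : Set A) : Prop :=
  ∀ x ∈ S, ∀ y, r (cross k x y) = 0

/-- The map `r` maps the product of `x` and of `y` to the image under `p` of `r' y`. -/
def IsPull (k : A ⊗[K] B ≃ₗ[K] M) (r : M →ₗ[K] W) (x : A) (p : U →ₗ[K] W) (r' : B →ₗ[K] U) : Prop :=
  ∀ y, r (cross k x y) = p (r' y)

end modules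

variable {K 𝒱 Γ : Type} {H : 𝒱 → Type} [Field K] [Mul 𝒱] [Group Γ] [∀ X, AddCommGroup (H X)]
  [∀ X, Module K (H X)]

/-- The cohomology `G X` of the generic point of `X` (over the algebraic closure of the finite field), the
direct limit of the cohomology of the nonempty open subvarieties, with its parts `gr X d` of degree
`d`: the Frobenius, the restriction of the classes on `X`, the inverse images under the projections
`X × Y → Y`, and the classes `one X` in `H^0 (X)`. -/
structure Generic (T : Cohomology K H Γ) : Type 1 where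
  G : 𝒱 → Type
  [grp : ∀ X, AddCommGroup (G X)]
  [mod : ∀ X, Module K (G X)]
  gr : ∀ X, ℕ → Submodule K (G X)
  frob : ∀ X, Module.End K (G X)
  res : ∀ X, H X →ₗ[K] G X
  pull : ∀ X Y, G Y →ₗ[K] G (X * Y)
  one : ∀ X, H X

attribute [instance] Generic.grp Generic.mod

variable {T : Cohomology K H Γ}

/-- The classes in the cohomology of degree `2 n` of the generic point which the Frobenius
multiplies by `q ^ n`: the invariants in `H^(2 n) (F_0 X) (n)`. -/
def Generic.invariants (D : Generic T) (q : ℕ) (X : 𝒱) (n : ℕ) : Set (D.G X) :=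
  eigenIn (D.frob X) (D.gr X (2 * n)) ((q : K) ^ n)

/-- The inverse images are injective, commute with the Frobenius and respect the degrees. -/
def Generic.IsInjectivePull (D : Generic T) : Prop :=
  ∀ X Y, Function.Injective (D.pull X Y) ∧ Intertwines (D.pull X Y) (D.frob Y) (D.frob (X * Y)) ∧
    ∀ n, MapsTo (D.pull X Y) (D.gr Y n) (D.gr (X * Y) n)

/-- The restriction commutes with the Frobenius `σ` and respects the degrees; it is zero on cycles of
positive codimension and on the products with cycles of positive codimension on `X`, and the restriction of `1 × y` is the inverse image of the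
restriction of `y`; the Galois group respects the degrees. The invariants in `H^(2 n) (F_0 X) (n)` come from
`H^(2 n) (X)` (`X` smooth projective): the quotients `H^(2 n) (U) / H^(2 n) (X)` have weights larger than
`2 n` (Deligne). -/
structure Generic.IsGeneric (D : Generic T) (q : ℕ) (σ : Γ) : Prop where
  frob_res : ∀ X, Intertwines (D.res X) (T.act X σ) (D.frob X)
  degree : ∀ X n, MapsTo (D.res X) (T.gr X n) (D.gr X n)
  stable : ∀ X n, MapsTo (T.act X σ) (T.gr X n) (T.gr X n)
  zero : ∀ X j, 0 < j → IsZeroOn (D.res X) (T.cycles X j)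
  cycle : ∀ X Y j, 0 < j → KillsProducts (T.kunneth X Y) (D.res (X * Y)) (T.cycles X j)
  one : ∀ X Y, IsPull (T.kunneth X Y) (D.res (X * Y)) (D.one X) (D.pull X Y) (D.res Y)
  pull : D.IsInjectivePull
  weights : ∀ X n, Lifts (D.res X) (T.gr X (2 * n)) (D.invariants q X n)

/-- The inverse image to the product `V × Z` of `Z` and of the `X_i` with the indices in a list. -/
def Generic.pullAll (D : Generic T) {ι : Type} (X : ι → 𝒱) (Z : 𝒱) :
    ∀ L : List ι, D.G Z → D.G (productOf X Z L)
  | [], y => y
  | i :: L, y => D.pull (X i) (productOf X Z L) (D.pullAll X Z L y)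

/-- The case `i = 2 n`, `j = n > 0` of Question Q1: there are no nonzero invariants in
`H^(2 n) (F_0 X) (n)`. -/
def Generic.Holds (D : Generic T) (q : ℕ) (X : 𝒱) (n : ℕ) : Prop :=
  ∀ y ∈ D.invariants q X n, y = 0

/-- The conclusions for the product `V × Z` of `Z` and of the `X_i` with the indices in the list `L`. -/
structure Generic.Conclusions (D : Generic T) (q : ℕ) {ι : Type} (X : ι → 𝒱) (Z : 𝒱)
    (L : List ι) : Prop where
  curve : T.IsCurve Z → ∀ n, 0 < n → D.Holds q (productOf X Z L) n
  holds : ∀ n, D.Holds q (productOf X Z L) n ↔ D.Holds q Z n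
  injective : Function.Injective (D.pullAll X Z L)
  invariants : ∀ n, D.invariants q (productOf X Z L) n = D.pullAll X Z L '' D.invariants q Z n

end Pool.Agent.U222.FF
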