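import Pool.Agent.U222.LG.Main
import Pool.Agent.U222.FF.Defs

/-!
# The cohomology of the generic point of a product
-/

set_option autoImplicit false
set_option linter.unusedSectionVars false

open Finset TensorProduct Polynomial

namespace Pool.Agent.U222.FF

open Pool.Agent.U222.SL Pool.Agent.U222.CR.Pub Pool.Agent.U222.SM

section lin

variable {K V W : Type} [Field K] [AddCommGroup V] [Module K V] [FiniteDimensional K V]
  [AddCommGroup W] [Module K W]

/-- polynomials in intertwined operators -/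
theorem aeval_inter {F : Module.End K V} {f : Module.End K W} {R : V →ₗ[K] W}
    (h : ∀ x, f (R x) = R (F x)) (P : K[X]) (x : V) : aeval f P (R x) = R (aeval F P x) := by
  have hp : ∀ (n : ℕ) (x : V), (f ^ n) (R x) = R ((F ^ n) x) := by
    intro n
    induction n with
    | zero => intro x; rfl
    | succ n ih =>
      intro x
      rw [pow_succ, pow_succ, Module.End.mul_apply, Module.End.mul_apply, h, ih]
  rw [aeval_eq_sum_range, aeval_eq_sum_range, LinearMap.sum_apply, LinearMap.sum_apply, map_sum]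
  refine sum_congr rfl fun j _ => ?_
  rw [LinearMap.smul_apply, LinearMap.smul_apply, map_smul, hp]

/-- a class whose image is an eigenvector can be replaced by a generalised eigenvector -/
theorem lift_gen (F : Module.End K V) (f : Module.End K W) (R : V →ₗ[K] W)
    (h : ∀ x, f (R x) = R (F x)) (μ : K) (S : Submodule K V) (hS : ∀ x ∈ S, F x ∈ S) {a : V}
    (ha : a ∈ S) (hfa : f (R a) = μ • R a) :
    ∃ b ∈ S, R b = R a ∧ ∃ N : ℕ, ((F - algebraMap K (Module.End K V) μ) ^ N) b = 0 := by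
  obtain ⟨g, hg, hnd⟩ := exists_eq_pow_rootMultiplicity_mul_and_not_dvd F.charpoly
    (LinearMap.charpoly_monic F).ne_zero μ
  set N := rootMultiplicity μ F.charpoly with hN
  have hgμ : g.eval μ ≠ 0 := fun h0 => hnd (dvd_iff_isRoot.2 h0)
  refine ⟨(g.eval μ)⁻¹ • aeval F g a, Submodule.smul_mem _ _ ?_, ?_, N, ?_⟩
  · rw [aeval_eq_sum_range, LinearMap.sum_apply]
    refine Submodule.sum_mem _ fun j _ => Submodule.smul_mem _ _ ?_
    have hp : ∀ n : ℕ, (F ^ n) a ∈ S := by
      intro n
      induction n with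
      | zero => exact ha
      | succ n ih => rw [pow_succ', Module.End.mul_apply]; exact hS _ ih
    exact hp j
  · rw [map_smul, ← aeval_inter h]
    have h1 : aeval f g (R a) = g.eval μ • R a := by
      have hp : ∀ n : ℕ, (f ^ n) (R a) = μ ^ n • R a := by
        intro n
        induction n with
        | zero => rw [pow_zero, pow_zero, one_smul]; rfl
        | succ n ih => rw [pow_succ', Module.End.mul_apply, ih, map_smul, hfa, smul_smul, pow_succ]
      rw [aeval_eq_sum_range, LinearMap.sum_apply, eval_eq_sum_range, sum_smul]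
      refine sum_congr rfl fun j _ => ?_
      rw [LinearMap.smul_apply, hp, smul_smul]
    rw [h1, smul_smul, inv_mul_cancel₀ hgμ, one_smul]
  · have h2 : ((F - algebraMap K (Module.End K V) μ) ^ N) (aeval F g a) = 0 := by
      have h3 : (F - algebraMap K (Module.End K V) μ) ^ N = aeval F ((X - C μ) ^ N) := by
        rw [map_pow, map_sub, aeval_X, aeval_C]
      rw [h3, ← Module.End.mul_apply, ← map_mul, ← hg, LinearMap.aeval_self_charpoly,
        LinearMap.zero_apply]
    rw [map_smul, h2, smul_zero]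

end lin

variable {K 𝒱 Γ : Type} {H : 𝒱 → Type} [Field K] [Mul 𝒱] [Group Γ] [∀ X, AddCommGroup (H X)]
  [∀ X, Module K (H X)]

section rem

variable {T : Cohomology K H Γ} {χ : Γ →* Kˣ} {q : ℕ} {σ : Γ} [Algebra K ℂ] {κ : Type} [Field κ]
  [Fintype κ] {C : Covering κ} {X : 𝒱} {I : Type} [Fintype I] [DecidableEq I] {codim : I → ℕ}
  {e : I → H X} {l : I → H X →ₗ[K] K}

/-- the remainder on a product -/
noncomputable def rm (T : Cohomology K H Γ) (X : 𝒱) {I : Type} [Fintype I] (e : I → H X)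
    (l : I → H X →ₗ[K] K) (Y : 𝒱) (u : H (X * Y)) : H (X * Y) :=
  u - ∑ k, cross (T.kunneth X Y) (e k) (slant (T.kunneth X Y) (l k) u)

theorem slant_sub {X Y : 𝒱} (k : H X ⊗[K] H Y ≃ₗ[K] H (X * Y)) (l : H X →ₗ[K] K)
    (z z' : H (X * Y)) : slant k l (z - z') = slant k l z - slant k l z' := by
  unfold slant contraction
  simp

theorem slant_sum {J : Type} {X Y : 𝒱} (k : H X ⊗[K] H Y ≃ₗ[K] H (X * Y)) (l : H X →ₗ[K] K)
    (s : Finset J) (z : J → H (X * Y)) : slant k l (∑ j ∈ s, z j) = ∑ j ∈ s, slant k l (z j) := by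
  unfold slant contraction
  simp

theorem rm_act (hT : T.IsStandard χ) (h : T.IsModel C σ X codim e l) (Y : 𝒱) (γ : Γ)
    (u : H (X * Y)) : rm T X e l Y (T.act (X * Y) γ u) = T.act (X * Y) γ (rm T X e l Y u) := by
  unfold rm
  rw [map_sub, map_sum]
  congr 1
  refine sum_congr rfl fun k _ => ?_
  rw [hT.cross, (hT.cycle X _ (h.cycle k)).2 γ, slant_act hT h, cross_smul, smul_cross]

theorem slant_rm (h : T.IsModel C σ X codim e l) (Y : 𝒱) (k : I) (u : H (X * Y)) :
    slant (T.kunneth X Y) (l k) (rm T X e l Y u) = 0 := by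
  unfold rm
  rw [slant_sub, slant_sum, sum_eq_single k]
  · rw [slant_cross, h.dual k k, if_pos rfl, one_smul, sub_self]
  · intro k' _ hk
    rw [slant_cross, h.dual k k', if_neg (Ne.symm hk), zero_smul]
  · intro hk
    exact absurd (mem_univ k) hk

theorem rm_zero {Y : 𝒱} : rm T X e l Y 0 = 0 := by
  unfold rm
  simp [slant_zero, cross_zero]

theorem rm_sub {Y : 𝒱} (u v : H (X * Y)) :
    rm T X e l Y (u - v) = rm T X e l Y u - rm T X e l Y v := by
  unfold rm
  have h1 : ∀ k, cross (T.kunneth X Y) (e k) (slant (T.kunneth X Y) (l k) (u - v)) =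
      cross (T.kunneth X Y) (e k) (slant (T.kunneth X Y) (l k) u) -
        cross (T.kunneth X Y) (e k) (slant (T.kunneth X Y) (l k) v) := by
    intro k
    rw [slant_sub]
    unfold cross
    rw [TensorProduct.tmul_sub, map_sub]
  rw [sum_congr rfl fun k _ => h1 k, sum_sub_distrib]
  abel

theorem rm_smul {Y : 𝒱} (a : K) (u : H (X * Y)) :
    rm T X e l Y (a • u) = a • rm T X e l Y u := by
  unfold rm
  rw [smul_sub, smul_sum]
  congr 1
  refine sum_congr rfl fun k _ => ?_
  rw [slant_smul, cross_smul]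

/-- generalised eigenvectors have no remainder -/
theorem rm_gen (hT : T.IsStandard χ) (h : T.IsModel C σ X codim e l) (Y : 𝒱) (μ : K)
    (hμ : ∀ x : H (X * Y), T.act (X * Y) σ x = μ • x →
      x = ∑ k, cross (T.kunneth X Y) (e k) (slant (T.kunneth X Y) (l k) x)) :
    ∀ (N : ℕ) (u : H (X * Y)),
      ((T.act (X * Y) σ - algebraMap K (Module.End K (H (X * Y))) μ) ^ N) u = 0 →
        rm T X e l Y u = 0 := by
  intro N
  induction N with
  | zero =>
    intro u hu
    have hu' : u = 0 := hu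
    rw [hu', rm_zero]
  | succ N ih =>
    intro u hu
    rw [pow_succ, Module.End.mul_apply] at hu
    have h1 := ih _ hu
    rw [LinearMap.sub_apply, Module.algebraMap_end_apply, rm_sub, rm_act hT h, rm_smul,
      sub_eq_zero] at h1
    have h2 := hμ _ h1
    rw [sum_eq_zero fun k _ => by rw [slant_rm h, cross_zero]] at h2
    exact h2

end rem

section main

variable {T : Cohomology K H Γ} {D : Generic T} {q : ℕ} {ι : Type} {X : ι → 𝒱} {Z : 𝒱}

/-- one factor -/
def Step (D : Generic T) (q : ℕ) (X : ι → 𝒱) (Z : 𝒱) : Prop :=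
  ∀ (i : ι) (L : List ι), (i :: L).Nodup → ∀ n, ∀ y ∈ D.invariants q (X i * productOf X Z L) n,
    ∃ y' ∈ D.invariants q (productOf X Z L) n, D.pull (X i) (productOf X Z L) y' = y

theorem pull_deg {σ : Γ} (hD : D.IsGeneric q σ)
    (hp : ∀ X Y n, ∀ y ∈ D.invariants q Y n, D.pull X Y y ∈ D.invariants q (X * Y) n)
    (hS : Step D q X Z) : ∀ L : List ι, L.Nodup →
      (∀ n, D.invariants q (productOf X Z L) n = D.pullAll X Z L '' D.invariants q Z n) ∧
        Function.Injective (D.pullAll X Z L) := by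
  intro L
  induction L with
  | nil =>
    intro _
    refine ⟨fun n => ?_, fun a b h => h⟩
    ext y
    exact ⟨fun hy => ⟨y, hy, rfl⟩, by rintro ⟨y, hy, rfl⟩; exact hy⟩
  | cons i L ih =>
    intro hL
    obtain ⟨h1, h2⟩ := ih (List.nodup_cons.1 hL).2
    refine ⟨fun n => ?_, fun a b hab => h2 ((hD.pull (X i) (productOf X Z L)).1 hab)⟩
    ext y
    constructor
    · intro hy
      obtain ⟨y', hy', rfl⟩ := hS i L hL n y hy
      rw [h1 n] at hy'
      obtain ⟨z, hz, rfl⟩ := hy'
      exact ⟨z, hz, rfl⟩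
    · rintro ⟨z, hz, rfl⟩
      have h3 : D.pullAll X Z L z ∈ D.invariants q (productOf X Z L) n := by
        rw [h1 n]
        exact ⟨z, hz, rfl⟩
      exact hp (X i) (productOf X Z L) n _ h3

theorem curve_holds {σ : Γ} (hD : D.IsGeneric q σ) (hZ : T.IsCurve Z) (n : ℕ) (hn : 0 < n) :
    D.Holds q Z n := by
  intro y hy
  obtain ⟨x, hx, rfl⟩ := hD.weights Z n y hy
  obtain ⟨_, h2, h3⟩ := hZ
  rcases Nat.lt_or_ge 1 n with h | h
  · rw [h3 (2 * n) (by omega) x hx, map_zero]
  · obtain rfl : n = 1 := by omega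
    have h4 := h2 x hx
    have h5 : Submodule.span K (T.cycles Z 1) ≤ LinearMap.ker (D.res Z) :=
      Submodule.span_le.2 fun z hz => LinearMap.mem_ker.2 (hD.zero Z 1 one_pos z hz)
    exact LinearMap.mem_ker.1 (h5 h4)

theorem conclusions {σ : Γ} (hD : D.IsGeneric q σ)
    (hp : ∀ X Y n, ∀ y ∈ D.invariants q Y n, D.pull X Y y ∈ D.invariants q (X * Y) n)
    (hS : Step D q X Z) (L : List ι) (hL : L.Nodup) : D.Conclusions q X Z L := by
  obtain ⟨h1, h2⟩ := pull_deg hD hp hS L hL
  have h0 : D.pullAll X Z L 0 = 0 := by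
    clear hL h1 h2
    induction L with
    | nil => rfl
    | cons i L ih =>
      show D.pull (X i) (productOf X Z L) (D.pullAll X Z L 0) = _
      rw [ih, map_zero]
      rfl
  have h3 : ∀ n, D.Holds q (productOf X Z L) n ↔ D.Holds q Z n := by
    intro n
    constructor
    · intro h y hy
      have h4 : D.pullAll X Z L y ∈ D.invariants q (productOf X Z L) n := by
        rw [h1 n]
        exact ⟨y, hy, rfl⟩
      exact h2 ((h _ h4).trans h0.symm)
    · intro h y hy
      rw [h1 n] at hy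
      obtain ⟨z, hz, rfl⟩ := hy
      rw [h z hz, h0]
  exact ⟨fun hZ n hn => (h3 n).2 (curve_holds hD hZ n hn), h3, h2, h1⟩

end main

theorem pull_inv {T : Cohomology K H Γ} {D : Generic T} {q : ℕ} (h : D.IsInjectivePull) (X Y : 𝒱)
    (n : ℕ) (y : D.G Y) (hy : y ∈ D.invariants q Y n) : D.pull X Y y ∈ D.invariants q (X * Y) n := by
  obtain ⟨_, h1, h2⟩ := h X Y
  refine ⟨h2 _ y hy.1, ?_⟩
  rw [h1, hy.2, map_smul]

section final

variable [∀ X, FiniteDimensional K (H X)]

theorem step (c : ℕ) [Fact c.Prime] (κ : Type) [Field κ] [Fintype κ] [CharP κ c] (f : ℕ)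
    (hf : Fintype.card κ = c ^ f) [Algebra K ℂ] {T : Cohomology K H Γ} {χ : Γ →* Kˣ}
    (hT : T.IsStandard χ) (σ : Γ) (hσ : ((χ σ : Kˣ) : K) = (Fintype.card κ : K))
    {D : Generic T} (hD : D.IsGeneric (Fintype.card κ) σ)
    {ι : Type} [Fintype ι] [DecidableEq ι] (C : ι → Covering κ)
    (X : ι → 𝒱) {I : ι → Type} [∀ i, Fintype (I i)] [∀ i, DecidableEq (I i)]
    (codim : ∀ i, I i → ℕ) (e : ∀ i, I i → H (X i)) (l : ∀ i, I i → H (X i) →ₗ[K] K)
    (hX : ∀ i, T.IsModel (C i) σ (X i) (codim i) (e i) (l i))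
    (h1 : ∀ i k, codim i k = 0 → e i k = D.one (X i)) (lam b N : ℕ)
    (hC : IsAdmissibleFamily C c f N lam b) (Z : 𝒱)
    (hZ : IsAdmissibleFactor c (Fintype.card κ) N lam b (complexified (T.act Z σ))) :
    Step D (Fintype.card κ) X Z := by
  intro i L hL n y hy
  obtain ⟨a, ha, rfl⟩ := hD.weights _ n y hy
  obtain ⟨u, hu, hua, N', hN'⟩ := lift_gen (T.act (X i * productOf X Z L) σ)
    (D.frob (X i * productOf X Z L)) (D.res (X i * productOf X Z L))
    (fun x => hD.frob_res _ x) ((Fintype.card κ : K) ^ n) (T.gr (X i * productOf X Z L) (2 * n))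
    (fun x hx => hD.stable _ _ x hx) ha hy.2
  have h2 := rm_gen hT (hX i) (productOf X Z L) ((Fintype.card κ : K) ^ n) (fun x hx =>
    LG.comp_fix c f hf hT hσ hX hC hZ hL (w := n) (by rw [hσ]; exact hx)) N' u hN'
  have h3 : u = ∑ k, cross (T.kunneth (X i) (productOf X Z L)) (e i k)
      (slant (T.kunneth (X i) (productOf X Z L)) (l i k) u) := by
    unfold rm at h2
    exact sub_eq_zero.1 h2
  obtain ⟨k0, hk0⟩ := (hX i).unit
  have h4 : ∀ k, k ≠ k0 → codim i k ≠ 0 := by
    intro k hk hk'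
    have h5 := (hX i).dual k k0
    rw [if_neg hk, h1 i k0 hk0, ← h1 i k hk', (hX i).dual k k, if_pos rfl] at h5
    exact one_ne_zero h5
  have h5 : D.res (X i * productOf X Z L) u = D.pull (X i) (productOf X Z L)
      (D.res (productOf X Z L) (slant (T.kunneth (X i) (productOf X Z L)) (l i k0) u)) := by
    conv_lhs => rw [h3]
    rw [map_sum, sum_eq_single k0]
    · rw [h1 i k0 hk0, hD.one]
    · intro k _ hk
      exact hD.cycle _ _ (codim i k) (Nat.pos_of_ne_zero (h4 k hk)) _ ((hX i).cycle k) _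
    · intro hk
      exact absurd (mem_univ k0) hk
  have h6 := (slant_deg hT ((hX i).algebraic k0).1 hu).1 (by omega)
  rw [hk0, mul_zero, Nat.sub_zero] at h6
  have h7 : D.pull (X i) (productOf X Z L)
      (D.res (productOf X Z L) (slant (T.kunneth (X i) (productOf X Z L)) (l i k0) u)) =
        D.res (X i * productOf X Z L) a := by rw [← h5, hua]
  refine ⟨_, ⟨hD.degree _ _ _ h6, ?_⟩, h7⟩
  obtain ⟨hinj, hfr, _⟩ := hD.pull (X i) (productOf X Z L)
  refine hinj ?_
  rw [← hfr, h7, map_smul, h7]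
  exact hy.2

end final

end Pool.Agent.U222.FF
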